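import Pool.Agent.MP_855f4c_ag.Aff.Main

/-! Monodromy-weight purity of the perfectly paired parts of the compactly supported cohomology of
an arbitrary smooth affine variety. -/

namespace Pool.Agent.MP_855f4c_ag.Old.AffineTube

open Pool.Agent.MP_855f4c_ag.Aff

theorem result (K : Type) [NontriviallyNormedField K] [CharZero K] (F : Type) [Field F]
    [CharZero F] (H : ∀ {ι : Type} {d : ι → ℕ}, Set (Amb K d) → ModuleCat.{0} F)
    (C : Theory K F H) (h₁ : C.Basic) (h₂ : C.Natural) (h₃ : C.Excision) (h₄ : C.Bundle)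
    (h₅ : C.Dimension) (h₆ : C.Tube) (q : ℕ) (hq : 0 < q)
    (φ u : AlgebraicClosure K ≃ₐ[K] AlgebraicClosure K) (hφ : (C.χ φ : F) = q) (hu : C.χ u = 1)
    (toric : C.Scholze q φ u) (N w c n e k : ℕ) (hn : n + c + 1 = N)
    (f : Fin w → Pol K fun _ : Unit => N) (hf : ∀ a, MH (f a) (Finsupp.single () (e + 1)))
    (h : Pol K fun _ : Unit => N) (hh : MH h (Finsupp.single () (k + 1)))
    (U : Set (Amb K fun _ : Unit => N)) (hU : U = zer f \ {z | ev h z = 0}) (sm : Smooth f c U)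
    (i : ℤ) (V W : Submodule F (H U)) (hV : V ≤ (C.A U).gr i)
    (hW : W ≤ (C.A U).gr (2 * n - i)) (sV : ∀ v ∈ V, (C.A U).ρ φ v ∈ V ∧ (C.A U).ρ u v ∈ V)
    (sW : ∀ x ∈ W, (C.A U).ρ u x ∈ W)
    (left : ∀ v ∈ V, (∀ x ∈ W, (C.A U).tr n ((C.A U).mul v x) = 0) → v = 0)
    (right : ∀ x ∈ W, (∀ v ∈ V, (C.A U).tr n ((C.A U).mul v x) = 0) → x = 0) :
    MwPure q i V ((C.A U).ρ φ) ((C.A U).ρ u) := by
  subst hU
  exact main_affine h₁.coh h₂.coh h₃.coh h₄.coh h₅.coh h₆.coh toric.coh hq hφ hu hn f e hf h k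
    hh sm i V W hV hW sV sW left right

end Pool.Agent.MP_855f4c_ag.Old.AffineTube
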