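import Pool.Agent.MP_855f4c_ag.Aff.Main

/-! Monodromy-weight purity of the non-invariant cohomology of a smooth projective variety under
a finite group generated by automorphisms that fix ample divisors pointwise. -/

namespace Pool.Agent.MP_855f4c_ag.Old.AmpleReflections

open Pool.Agent.MP_855f4c_ag.Aff

theorem result (K : Type) [NontriviallyNormedField K] [CharZero K] (F : Type) [Field F]
    [CharZero F] (H : ∀ {ι : Type} {d : ι → ℕ}, Set (Amb K d) → ModuleCat.{0} F)
    (C : Theory K F H) (h₁ : C.Basic) (h₂ : C.Natural) (h₃ : C.Excision)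
    (h₄ : C.BaseChange) (h₅ : C.Bundle) (h₆ : C.Dimension) (h₇ : C.Duality) (h₈ : C.Tube)
    (q : ℕ) (hq : 0 < q) (φ u : AlgebraicClosure K ≃ₐ[K] AlgebraicClosure K)
    (hφ : (C.χ φ : F) = q) (hu : C.χ u = 1) (toric : C.Scholze q φ u)
    (N w c n e : ℕ) (hn : n + c + 1 = N) (f : Fin w → Pol K fun _ : Unit => N)
    (hf : ∀ a, MH (f a) (Finsupp.single () (e + 1))) (X : Set (Amb K fun _ : Unit => N))
    (hX : X = zer f) (sm : Smooth f c X) (G : Type) [Group G] [Finite G]
    (s : G →* Module.End F (H X)) (S : Set G) (hS : Subgroup.closure S = ⊤)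
    (hs : ∀ g ∈ S, C.Refl X (s g)) (i : ℤ) :
    MwPure q i (⨆ g, ((C.A X).gr i).map (s g - 1)) ((C.A X).ρ φ) ((C.A X).ρ u) := by
  subst hX
  exact (main_group h₁.coh h₂.coh h₃.coh h₄.coh h₅.coh h₆.coh h₇.coh h₈.coh toric.coh hq hφ hu
    hn f e hf sm G s S hS hs i).1

end Pool.Agent.MP_855f4c_ag.Old.AmpleReflections
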