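import Pool.Agent.MP_855f4c_ag.Lit

/-! For special fibres with double points only, monodromy-weight purity of the abutment of the weight
spectral sequence in all degrees is equivalent to semisimplicity at `0` of `ρ Λ τ` on the double locus. -/

namespace Pool.Agent.MP_855f4c_ag.Old.DoublePoints

open Pool.Agent.MP_855f4c_ag

theorem result (F : Type) [Field F] [CharZero F] (B : ℕ → ModuleCat.{0} F)
    [∀ p, FiniteDimensional F (B p)] (hn : ∀ p, 1 < p → ∀ x : B p, x = 0)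
    (h L Λ Φ : ∀ p, Module.End F (B p)) (t : ∀ p, IsSl2 (h p) (L p) (Λ p))
    (ρ : ∀ p, B p →ₗ[F] B (p + 1)) (τ : ∀ p, B (p + 1) →ₗ[F] B p)
    (ρL : ∀ p x, L (p + 1) (ρ p x) = ρ p (L p x)) (τL : ∀ p x, L p (τ p x) = τ p (L (p + 1) x))
    (ρh : ∀ p x, h (p + 1) (ρ p x) - ρ p (h p x) = ρ p x)
    (τh : ∀ p x, h p (τ p x) - τ p (h (p + 1) x) = τ p x)
    (ρτ : ∀ x, ρ 0 (τ 0 x) = 0)
    (n q : ℕ) (hq : 1 < q) (ρΦ : ∀ p x, Φ (p + 1) (ρ p x) = ρ p (Φ p x))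
    (τΦ : ∀ p x, Φ p (τ p x) = (q : F) • τ p (Φ (p + 1) x))
    (pure : ∀ (p : ℕ) (m : ℤ), Pure q (m + n - p) (Φ p) ⊥ ((h p).eigenspace m))
    (HL : CohLef F (difF ρ τ) (diagF h) (diagF L))
    (H : ℤ → ModuleCat.{0} F) (φ N : ∀ i, Module.End F (H i)) (W : ∀ i, ℤ → Submodule F (H i))
    (π : ∀ i, ℤ → H i →ₗ[F] E1 B)
    (ab : ∀ i : ℤ, Abuts (difF ρ τ) (diagF h) colF (frobF q Φ) monF ((i : F) - n) (φ i) (N i) (W i) (π i)) :
    (∀ i, MwPure q i (φ i) (N i)) ↔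
      ∀ x : B 1, ρ 0 (Λ 0 (τ 0 (ρ 0 (Λ 0 (τ 0 x))))) = 0 → ρ 0 (Λ 0 (τ 0 x)) = 0 :=
  Iff.trans
    ⟨rz_lit_conv ρ τ 1 n hn h L Λ Φ t (fun p => LinearMap.ext (ρh p)) (fun p => LinearMap.ext (τh p)) q hq
        pure ρΦ τΦ H φ N W π ab,
      fun WM i => rz_lit ρ τ 1 n hn h L Λ Φ t (fun p => LinearMap.ext (ρh p)) (fun p => LinearMap.ext (τh p)) q
        (by omega) pure ρΦ τΦ WM i (φ i) (N i) (W i) (π i) (ab i)⟩
    (rz_double_iff ρ τ hn h L Λ t (fun p => LinearMap.ext (ρL p))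
      (fun p => LinearMap.ext (τL p)) (fun p => LinearMap.ext (ρh p)) (fun p => LinearMap.ext (τh p))
      (LinearMap.ext ρτ) ((cohLef_L ρ τ h L).1 HL))

end Pool.Agent.MP_855f4c_ag.Old.DoublePoints
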