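import Pool.Agent.MP_855f4c_ag.TC.All

namespace Pool.Agent.MP_855f4c_ag.Old.EtaleGrassmann

open CategoryTheory Limits AlgebraicGeometry MvPolynomial Pool.Agent.MP_855f4c_ag.Et

attribute [local instance] MvPolynomial.gradedAlgebra

theorem result
    (K : Type) [Field K] (Y : Scheme.{0}) (f : Y ⟶ Spec (.of K)) (d N : ℕ)
    [SmoothOfRelativeDimension d f] [GeometricallyIrreducible f]
    (ι : Y ⟶ Proj (homogeneousSubmodule (Fin (N + 1)) K)) [IsClosedImmersion ι]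
    (hι : ι ≫ Proj.toSpecZero _ ≫ Spec.map (CommRingCat.ofHom (algebraMap K _)) = f)
    (s c : ℕ) (k n : Fin s → ℕ)
    (F : Fin c → MvPolynomial (Σ a : Σ b, Fin (k b), Fin (n a.1 + 1)) K)
    (e : Fin c → (Σ b, Fin (k b)) → ℕ)
    (hF : ∀ j, (F j).IsWeightedHomogeneous (fun t => Pi.single t.1 1) (e j))
    (q : Fin (N + 1) → MvPolynomial (Σ a : Σ b, Fin (k b), Fin (n a.1 + 1)) K)
    (m : (Σ b, Fin (k b)) → ℕ)
    (hq : ∀ j, (q j).IsWeightedHomogeneous (fun t => Pi.single t.1 1) m)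
    (hnum : coeff (Finsupp.equivFunOnFinite.symm fun a : Σ b, Fin (k b) => n a.1)
      ((∏ b, ∏ i : Fin (k b), ∏ j ∈ Finset.Ioi i, (X ⟨b, j⟩ - X ⟨b, i⟩)) ^ 2 *
        (∑ a, m a • X a) ^ d * ∏ j, ∑ a, e j a • X a : MvPolynomial _ ℤ) ≠ 0)
    (O Ω : Type) [CommRing O] [IsDomain O] [IsDiscreteValuationRing O]
    [Finite (IsLocalRing.ResidueField O)] [Field Ω] [CharZero Ω] [IsAlgClosed Ω] [Algebra O Ω]
    [FaithfulSMul O Ω] [Algebra.IsAlgebraic O Ω] [Algebra K Ω]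
    (hY : ∀ v : (Σ a : Σ b, Fin (k b), Fin (n a.1 + 1)) → Ω,
      (∀ b, LinearIndependent Ω fun (i : Fin (k b)) (x : Fin (n b + 1)) => v ⟨⟨b, i⟩, x⟩) →
      (∀ j, aeval v (F j) = 0) → (∃ j, aeval v (q j) ≠ 0) ∧
        ∀ (G : MvPolynomial (Fin (N + 1)) K) (r : ℕ), G.IsHomogeneous r →
          (∀ y : Y, G ∈ (ι y).asHomogeneousIdeal) → aeval (fun j => aeval v (q j)) G = 0)
    (l : ℕ) [Fact l.Prime] (hl : IsUnit (l : O)) (i : ℕ) (φ u : Ω ≃ₐ[K] Ω) (Q : ℕ) (hQ : 1 < Q)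
    (hφ : Frob O Q φ) (hu : Frob O 1 u)
    (hr : ∃ (n : ℕ) (r : Ω) (o : O), r ^ l ^ n = algebraMap O Ω o ∧ u r ≠ r) :
    Mw Q i (gal f l i φ) (gal f l i u) :=
  Pool.Agent.MP_855f4c_ag.T.All.hFINAL K Y f d N ι hι s c k n F e hF q m hq hnum O Ω hY l hl i φ u Q hQ hφ hu hr

end Pool.Agent.MP_855f4c_ag.Old.EtaleGrassmann

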