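import Pool.Agent.MP_855f4c_ag.EG.GAll
import Pool.Agent.MP_855f4c_ag.EG.Ge

namespace Pool.Agent.MP_855f4c_ag.Old.EtaleNearGood

open CategoryTheory Limits AlgebraicGeometry Pool.Agent.MP_855f4c_ag.Et

/-- In every residue characteristic, in a smooth proper family over a semistable base, the `l`-adic
etale cohomology of the fibres is mw pure on a strict neighbourhood of the integral points. -/
theorem result (O Ω : Type) [CommRing O] [IsDomain O] [IsDiscreteValuationRing O]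
    [Finite (IsLocalRing.ResidueField O)] [Field Ω] [CharZero Ω] [IsAlgClosed Ω] [Algebra O Ω]
    [FaithfulSMul O Ω] [Algebra.IsAlgebraic O Ω] (l : ℕ) [Fact l.Prime] (hl : IsUnit (l : O))
    (w : O) (h0 : w ≠ 0) (h1 : ¬ IsUnit w) (j : ℕ) (A : Type) [CommRing A] [Algebra O A]
    (g : (MvPolynomial (Fin j) O ⧸
      Ideal.span {∏ k : Fin j, MvPolynomial.X k - MvPolynomial.C (σ := Fin j) w}) →ₐ[O] A)
    (hg : g.toRingHom.Smooth) (s : Set A) (hs : Algebra.adjoin O s = ⊤)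
    (R : Type) [CommRing R] [Algebra.FiniteType ℤ R] (ρ : R →+* A) (X : Scheme.{0})
    (f : X ⟶ Spec (.of R)) [Smooth f] [IsProper f] :
    ∃ N : ℕ, ∀ (x : A →ₐ[O] Ω) [Algebra R Ω], (∀ r, algebraMap R Ω r = x (ρ r)) →
      (∀ a ∈ s, IsIntegral O (algebraMap O Ω w * x a ^ N)) →
      ∀ (i : ℕ) (φ u : Ω ≃ₐ[R] Ω) (Q : ℕ), 1 < Q → Frob O Q φ → Frob O 1 u →
        (∃ (n : ℕ) (r : Ω) (o : O), r ^ l ^ n = algebraMap O Ω o ∧ u r ≠ r) →
        Mw Q i (gal f l i φ) (gal f l i u) :=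
  open MP_855f4c_ag.E in
  (G.ngd G.ngtA All.pbcx M3.emb M3.iso M3.ext M3.frb O Ω l hl w h0 h1 j A g hg s hs R ρ X f).imp
    fun _ h x _ a b i φ u Q c d e k => mw_of f l i Q φ u (h x a b i φ u Q c d e k)

end Pool.Agent.MP_855f4c_ag.Old.EtaleNearGood
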