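import Pool.Agent.MP_855f4c_ag.Gr.Main

/-! Monodromy-weight purity passes from smooth complete intersections in products of projective
spaces to smooth zero loci in products of Grassmannians. -/

namespace Pool.Agent.MP_855f4c_ag.Old.Grassmann

open Pool.Agent.MP_855f4c_ag.Gr MvPolynomial

theorem result (K : Type) [NontriviallyNormedField K] [CharZero K] (F : Type) [Field F]
    [CharZero F] (n k c s d q : ℕ) (hn : 0 < n)
    (A : ∀ {ι : Type} [Finite ι], Var K n ι → AlgCat.{0} F)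
    (gr : ∀ {ι : Type} [Finite ι] (X : Var K n ι), ℕ → Submodule F (A X))
    (pull : ∀ {ι κ : Type} [Finite ι] [Finite κ] {X : Var K n ι} {Y : Var K n κ} (α : κ → ι),
      Maps X Y α → (A Y →ₐ[F] A X))
    (ρ : ∀ {ι : Type} [Finite ι] (X : Var K n ι),
      (AlgebraicClosure K ≃ₐ[K] AlgebraicClosure K) →* (A X ≃ₐ[F] A X))
    (x : ∀ {ι : Type} [Finite ι] (X : Var K n ι), ι → A X)
    (χ : (AlgebraicClosure K ≃ₐ[K] AlgebraicClosure K) →* Fˣ)
    (h₁ : Graded gr ρ x χ) (h₂ : Natural gr pull ρ x) (h₃ : Bundle pull x) (h₄ : Blowup pull)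
    (h₅ : Duality gr) (h₆ : Trace ρ x) (h₇ : Tube gr ρ x)
    (σ Φ : AlgebraicClosure K ≃ₐ[K] AlgebraicClosure K) (hσ : χ σ = 1) (hΦ : (χ Φ : F) = q)
    (e : Fin c → Fin k → ℕ)
    (toric : ∀ (g : Fin c → MvPolynomial (Fin k × Fin n) K) (V : Var K n (Fin k)),
      V = zer id g → MH g e → CI g → ∀ i,
        MwPure q i (gr V i) (ρ V Φ).toLinearMap (ρ V σ).toLinearMap)
    (β : Fin k → Fin s) (hβ : Function.Surjective β)
    (f : Fin c → MvPolynomial (Fin k × Fin n) K) (he : MH f e) (hf : Sm β f)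
    (Y : Var K n (Fin s)) (hY : Y = zer β f) (hd : d + c + ∑ j, Y.k j ^ 2 = k * n)
    (conn : Module.finrank F (gr Y 0) = 1)
    (hnum : bez n e ((∏ l, ∏ i ∈ (Finset.Iio l).filter fun i => β i = β l, (X l - X i)) ^ 2 *
      (∑ l, X l) ^ d) ≠ 0) (i : ℕ) :
    MwPure q i (gr Y i) (ρ Y Φ).toLinearMap (ρ Y σ).toLinearMap := by
  subst hY
  exact Coh.transfer ⟨A, gr, pull, χ, ρ, x, h₁, h₂, h₃, h₄, h₅, h₆, h₇⟩ hn β hβ e σ Φ hσ hΦ
    (fun g => toric g _ rfl) f he hf hd conn hnum i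

end Pool.Agent.MP_855f4c_ag.Old.Grassmann
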