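import Pool.Agent.MP_855f4c_ag.WD.Glue

namespace Pool.Agent.MP_855f4c_ag.Old.LargePrime

open Pool.Agent.MP_855f4c_ag.LP

/-- In a family of finite type over `ℤ`, a pointwise pure lisse `ℚ_l`-system is mw pure at all
`p`-adic points, for all primes `p` not dividing `M`. -/
theorem result (R : Type) [CommRing R] [Algebra.FiniteType ℤ R] :
    ∃ M : ℕ, M ≠ 0 ∧ ∀ (p l : ℕ) [Fact p.Prime] [Fact l.Prime], ¬ p ∣ M → l ≠ p →
      ∀ (A : Type) [CommRing A] [Algebra R A] [IsLocalization.Away (l : R) A]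
        (L : LocSys A ℚ_[l]) (i : ℤ), Lisse L →
        (∀ [Algebra A (AlgebraicClosure (ZMod p))], Pure L i (AlgebraicClosure (ZMod p))) →
        ∀ [Algebra A (PadicAlgCl p)], WM L l i ℤ_[p] (PadicAlgCl p) :=
  lp_pure R

end Pool.Agent.MP_855f4c_ag.Old.LargePrime
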