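import Pool.Agent.MP_855f4c_ag.WD.Glue

namespace Pool.Agent.MP_855f4c_ag.Old.NearGood

open Pool.Agent.MP_855f4c_ag.LP

/-- For every prime `p`, a lisse `ℚ_l`-system on a semistable base that is pointwise pure on the
special fibre is mw pure on a strict neighbourhood of the good reduction locus. -/
theorem result (p l : ℕ) [Fact p.Prime] [Fact l.Prime] (hlp : l ≠ p)
    (K : IntermediateField ℚ_[p] (PadicAlgCl p)) [FiniteDimensional ℚ_[p] K] (O A : Type)
    [CommRing O] [Algebra O (PadicAlgCl p)]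
    (hO : ∀ c, algebraMap O (PadicAlgCl p) c ∈ K ∧ ‖algebraMap O (PadicAlgCl p) c‖ ≤ 1)
    (w : O) (hw0 : algebraMap O (PadicAlgCl p) w ≠ 0) (hw1 : ‖algebraMap O (PadicAlgCl p) w‖ < 1)
    (j : ℕ) [CommRing A] [Algebra O A]
    [Algebra (MvPolynomial (Fin j) O ⧸
      Ideal.span {∏ k : Fin j, MvPolynomial.X k - MvPolynomial.C (σ := Fin j) w}) A]
    [IsScalarTower O (MvPolynomial (Fin j) O ⧸
      Ideal.span {∏ k : Fin j, MvPolynomial.X k - MvPolynomial.C (σ := Fin j) w}) A]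
    [Algebra.Smooth (MvPolynomial (Fin j) O ⧸
      Ideal.span {∏ k : Fin j, MvPolynomial.X k - MvPolynomial.C (σ := Fin j) w}) A]
    (s : Set A) (hs : Algebra.adjoin O s = ⊤) (L : LocSys A ℚ_[l]) (hL : Lisse L) :
    ∃ r : ℝ, 1 < r ∧ ∀ i : ℤ,
      (∀ [Algebra A (AlgebraicClosure (ZMod p))],
        (∀ c, ‖algebraMap O (PadicAlgCl p) c‖ < 1 →
          algebraMap A (AlgebraicClosure (ZMod p)) (algebraMap O A c) = 0) →
        Pure L i (AlgebraicClosure (ZMod p))) →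
      ∀ [Algebra A (PadicAlgCl p)] [IsScalarTower O A (PadicAlgCl p)],
        (∀ a ∈ s, ‖algebraMap A (PadicAlgCl p) a‖ ≤ r) → WM L l i ℤ_[p] (PadicAlgCl p) :=
  ng_pure p l hlp K O A hO w hw0 hw1 (sm_sp w j) s hs L hL

end Pool.Agent.MP_855f4c_ag.Old.NearGood
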