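import Pool.Agent.MP_855f4c_ag.Strata

/-! Monodromy-weight purity of the abutment of the weight spectral sequence from pairings and the
Frobenius spectrum on the strata of positive depth. -/

namespace Pool.Agent.MP_855f4c_ag.Old.Strata

open Pool.Agent.MP_855f4c_ag

theorem result (F : Type) [Field F] [CharZero F] [IsAlgClosed F] (B : ℕ → ModuleCat.{0} F)
    [∀ p, FiniteDimensional F (B p)] (n : ℕ) (hn : ∀ p, n < p → ∀ x : B p, x = 0)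
    (h L Λ Φ : ∀ p, Module.End F (B p)) (t : ∀ p, IsSl2 (h p) (L p) (Λ p))
    (ρ : ∀ p, B p →ₗ[F] B (p + 1)) (τ : ∀ p, B (p + 1) →ₗ[F] B p)
    (ρL : ∀ p x, L (p + 1) (ρ p x) = ρ p (L p x)) (τL : ∀ p x, L p (τ p x) = τ p (L (p + 1) x))
    (ρh : ∀ p x, h (p + 1) (ρ p x) - ρ p (h p x) = ρ p x)
    (τh : ∀ p x, h p (τ p x) - τ p (h (p + 1) x) = τ p x)
    (ρρ : ∀ p x, ρ (p + 1) (ρ p x) = 0) (ττ : ∀ p x, τ p (τ (p + 1) x) = 0)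
    (ρτ : ∀ p x, τ (p + 1) (ρ (p + 1) x) + ρ p (τ p x) = 0)
    (q : ℕ) (hq : 0 < q) (ρΦ : ∀ p x, Φ (p + 1) (ρ p x) = ρ p (Φ p x))
    (τΦ : ∀ p x, Φ p (τ p x) = (q : F) • τ p (Φ (p + 1) x))
    (hΦ : ∀ p x, Φ p (h p x) = h p (Φ p x)) (ΛΦ : ∀ p x, (q : F) • Φ p (Λ p x) = Λ p (Φ p x))
    (pure : ∀ (p : ℕ) (m : ℤ), Pure q (m + n - p) (Φ p) ⊥ ((h p).eigenspace m))
    (HL : CohLef F (difF ρ τ) (diagF h) (diagF L))
    (H : Type) [AddCommGroup H] [Module F H] (i : ℤ) (φ N : Module.End F H) (W : ℤ → Submodule F H)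
    (π : ℤ → H →ₗ[F] E1 B) (ab : Abuts (difF ρ τ) (diagF h) colF (frobF q Φ) monF ((i : F) - n) φ N W π)
    (G : Type) [AddCommGroup G] (s : ∀ p, B p →+ B p →+ G)
    (sΛ : ∀ p x y, s (p + 1) (Λ (p + 1) x) y = s (p + 1) x (Λ (p + 1) y))
    (sρ : ∀ p x y, s (p + 2) (ρ (p + 1) x) y = s (p + 1) x (τ (p + 1) y))
    (sτ : ∀ p x y, s (p + 1) (τ (p + 1) y) x = s (p + 2) y (ρ (p + 1) x))
    (sT : ∀ x y, s 1 (ρ 0 (Λ 0 (τ 0 x))) y = s 1 x (ρ 0 (Λ 0 (τ 0 y))))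
    (iso : ∀ p (k : ℕ) (α : F) a b c y, y = τ (p + 1) a + ρ p b + Λ (p + 1) (ρ p c) → y ≠ 0 →
      Λ (p + 1) y = 0 → h (p + 1) y = -(k : F) • y → Φ (p + 1) y = α • y →
      s (p + 1) y ((L (p + 1) ^ k) y) = 0 → ∀ x (j : ℕ), Λ (p + 1) x = 0 → h (p + 1) x = -(k : F) • x →
        ((Φ (p + 1) - α • 1) ^ j) x = 0 → ∃ r : F, x = r • y) :
    MwPure q i φ N :=
  rz_lit ρ τ n n hn h L Λ Φ t (fun p => LinearMap.ext (ρh p)) (fun p => LinearMap.ext (τh p)) q hq pure ρΦ τΦ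
    (rz_main ρ τ n hn h L Λ t (fun p => LinearMap.ext (ρL p)) (fun p => LinearMap.ext (τL p))
      (fun p => LinearMap.ext (ρh p)) (fun p => LinearMap.ext (τh p)) (fun p => LinearMap.ext (ρρ p))
      (fun p => LinearMap.ext (ττ p)) (fun p => LinearMap.ext (ρτ p))
      (lap_ss t ρL τL ρh τh ρτ hq ρΦ τΦ hΦ ΛΦ s sΛ sρ sτ sT iso) ((cohLef_L ρ τ h L).1 HL))
    i φ N W π ab

end Pool.Agent.MP_855f4c_ag.Old.Strata
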